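import Pool.Agent.Lib.MP_7de5c3_lc.Main

/-! A polynomial `α`-lossy kernel for Edge Bisection puts the `α`-gap version of the fixed-size
cut problem (which contains the `α`-gap version of Minimum Bisection) into promise-coNP/poly. -/

namespace Pool.Agent.Results.MP_7de5c3_lc.GapCollapse

open Pool.Agent.Lib.MP_7de5c3_lc

theorem result : ∀ α : ℝ, 1 ≤ α → HasPolyLossyKernel α → PromiseCoNPpoly GapYes (GapNo α) :=
  fun _ hα h => gap_collapse (zero_le_one.trans hα) h

end Pool.Agent.Results.MP_7de5c3_lc.GapCollapse
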