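import Pool.Agent.Lib.MP_7de5c3_lc.SSE

/-! Under the Small Set Expansion Hypothesis, Edge Bisection has no polynomial `α`-lossy kernel
for any constant `α`, unless NP is contained in coNP/poly. -/

namespace Pool.Agent.Results.MP_7de5c3_lc.UnderSSEH

open Pool.Agent.Lib.MP_7de5c3_lc

theorem result : SSEH → ¬ (N68a2faeb.NP ⊆ coNPpoly) →
    ∀ α : ℝ, 1 ≤ α → ¬ HasPolyLossyKernel α :=
  fun h hNP _ hα hk => hNP (np_subset_of_kernel h (zero_le_one.trans hα) hk)

end Pool.Agent.Results.MP_7de5c3_lc.UnderSSEH
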